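import Pool.Agent.U167.SA.Stm3
import Pool.Agent.U97.SA.PERC
import Mathlib

/-!
Project SA, third part, package LOC: decomposition of the probability of the arm together with a
local event over the configurations of the box of radius `m`.
-/

set_option autoImplicit false

namespace Pool.Agent.U312.SA

open H974 Filter Topology MeasureTheory
open Pool.Agent.U167.SA
open Pool.Agent.U97.SA

theorem ok_half : Ok (fun _ : Edg => (1 / 2 : ℝ)) := fun _ => ⟨by norm_num, by norm_num⟩

theorem md_mono (m : ℕ) (η : Finset Edg) {F F' : Finset Edg} (h : F ⊆ F') :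
    md m η F ⊆ md m η F' := by
  intro e he
  unfold md at he ⊢
  simp only [Finset.mem_union, Finset.mem_sdiff] at he ⊢
  rcases he with he | he
  · exact Or.inl ⟨h he.1, he.2⟩
  · exact Or.inr he

theorem PMm_mono (m : ℕ) (η : Finset Edg) (G : Set Edg) (A : Set Vtx) (n : ℤ) :
    Monotone (PMm m η G A n) := by
  intro M M' h
  exact Pr_mono_set ok_half (boxE_mono h) (fun F F' h1 _ h2 => Hit_mono (md_mono m η h1) h2)

theorem PMm_tendsto (m : ℕ) (η : Finset Edg) (G : Set Edg) (A : Set Vtx) (n : ℤ) :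
    Tendsto (PMm m η G A n) atTop (𝓝 (PPm m η G A n)) := by
  refine tendsto_atTop_ciSup (PMm_mono m η G A n) ⟨1, ?_⟩
  rintro _ ⟨M, rfl⟩
  exact Pr_le_one ok_half _ _

/-- the probability given `η` in the box, written with the configurations of the annulus -/
theorem PMm_eq (m M : ℕ) (η : Finset Edg) (G : Set Edg) (A : Set Vtx) (n : ℤ) :
    PMm m η G A n M =
      Ex (fun _ => (1 / 2 : ℝ)) (boxE M \ boxE m) (fun B => ind (Hit G A n (η ∪ B))) := by
  have hS : boxE M \ boxE m ⊆ boxE M := Finset.sdiff_subset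
  have h1 : PMm m η G A n M =
      Pr (fun _ => (1 / 2 : ℝ)) (boxE M \ boxE m) (fun F => Hit G A n (md m η F)) := by
    apply Pr_local hS
    intro F hF
    have : md m η F = md m η (F ∩ (boxE M \ boxE m)) := by
      ext e
      unfold md
      simp only [Finset.mem_union, Finset.mem_sdiff, Finset.mem_inter]
      constructor
      · rintro (h | h)
        · exact Or.inl ⟨⟨h.1, hF h.1, h.2⟩, h.2⟩
        · exact Or.inr h
      · rintro (h | h)
        · exact Or.inl ⟨h.1.1, h.2⟩
        · exact Or.inr h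
    rw [← this]
  rw [h1]
  apply Pr_congr
  intro B hB
  have : md m η B = η ∪ B := by
    ext e
    unfold md
    simp only [Finset.mem_union, Finset.mem_sdiff]
    constructor
    · rintro (h | h)
      · exact Or.inr h.1
      · exact Or.inl h
    · rintro (h | h)
      · exact Or.inr h
      · exact Or.inl ⟨h, (Finset.mem_sdiff.1 (hB h)).2⟩
  rw [this]

open Classical in
/-- the decomposition in finite volume -/
theorem fin_vol {m M : ℕ} (hm : m ≤ M) (W : Finset Edg → Prop) (G : Set Edg) (A : Set Vtx)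
    (n : ℤ) :
    Pr (fun _ => (1 / 2 : ℝ)) (boxE M) (fun F => W (F ∩ boxE m) ∧ Hit G A n F) =
      ∑ η ∈ (boxE m).powerset.filter W, (1 / 2 : ℝ) ^ (boxE m).card * PMm m η G A n M := by
  have hU : boxE M = boxE m ∪ (boxE M \ boxE m) := by
    rw [Finset.union_sdiff_of_subset (boxE_mono hm)]
  have hd : Disjoint (boxE m) (boxE M \ boxE m) := Finset.disjoint_sdiff
  unfold Pr
  conv_lhs => rw [hU]
  rw [Ex_union hd]
  have h1 : ∀ η, η ⊆ boxE m →
      Ex (fun _ => (1 / 2 : ℝ)) (boxE M \ boxE m)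
        (fun B => ind (W ((η ∪ B) ∩ boxE m) ∧ Hit G A n (η ∪ B))) =
      ind (W η) * PMm m η G A n M := by
    intro η hη
    rw [PMm_eq m M, ← Ex_mul_left]
    apply Ex_congr
    intro B hB
    have : (η ∪ B) ∩ boxE m = η := by
      ext e
      simp only [Finset.mem_union, Finset.mem_inter]
      constructor
      · rintro ⟨h | h, h2⟩
        · exact h
        · exact absurd h2 (Finset.mem_sdiff.1 (hB h)).2
      · intro h
        exact ⟨Or.inl h, hη h⟩
    rw [this, ind_and]
  rw [Ex_congr h1]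
  unfold Ex
  rw [Finset.sum_filter]
  apply Finset.sum_congr rfl
  intro η hη
  have hηS := Finset.mem_powerset.1 hη
  rw [Finset.prod_const, Finset.prod_const]
  have e : (1 / 2 : ℝ) ^ η.card * (1 - 1 / 2 : ℝ) ^ (boxE m \ η).card =
      (1 / 2 : ℝ) ^ (boxE m).card := by
    have : (1 - 1 / 2 : ℝ) = 1 / 2 := by norm_num
    rw [this, ← pow_add]
    congr 1
    rw [Finset.card_sdiff_of_subset hηS]
    have := Finset.card_le_card hηS
    omega
  rw [e]
  beta_reduce
  by_cases h : W η
  · rw [if_pos h, ind_of h, one_mul]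
  · rw [if_neg h, ind_not_of h]
    ring

theorem op_inter {m M : ℕ} (hm : m ≤ M) (ω : Edg → Bool) :
    op (boxE M) ω ∩ boxE m = op (boxE m) ω := by
  ext e
  rw [Finset.mem_inter, mem_op, mem_op]
  constructor
  · rintro ⟨h1, h2⟩
    exact ⟨h2, h1.2⟩
  · rintro ⟨h1, h2⟩
    exact ⟨⟨boxE_mono hm h1, h2⟩, h1⟩

theorem t_LOC : LOCStm := by
  classical
  intro m W G A n
  have hU : {ω : Edg → Bool | W ((boxE m).filter (fun e => ω e = true)) ∧
        ∃ u ∈ A, ∃ v, col v = n ∧ Reach ({e | ω e = true} ∩ G) u v} =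
      ⋃ M : ℕ, {ω | W (op (boxE m) ω) ∧ Hit G A n (op (boxE M) ω)} := by
    ext ω
    rw [Set.mem_iUnion]
    have hop : op (boxE m) ω = (boxE m).filter (fun e => ω e = true) := by
      ext e
      rw [mem_op, Finset.mem_filter]
    constructor
    · rintro ⟨hW, u, hu, v, hv, hr⟩
      obtain ⟨M, hM⟩ := reach_fin G ω hr
      refine ⟨M, ?_, u, hu, v, hv, hM⟩
      rw [hop]
      exact hW
    · rintro ⟨M, hW, u, hu, v, hv, hr⟩
      refine ⟨?_, u, hu, v, hv, hr.mono (Set.inter_subset_inter_left _ ?_)⟩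
      · rw [hop] at hW
        exact hW
      · intro e he
        rw [Finset.mem_coe, mem_op] at he
        exact he.2
  have h2 : Tendsto (fun M : ℕ => percE {ω | W (op (boxE m) ω) ∧ Hit G A n (op (boxE M) ω)}) atTop
      (𝓝 (percE (⋃ M : ℕ, {ω | W (op (boxE m) ω) ∧ Hit G A n (op (boxE M) ω)}))) := by
    refine tendsto_measure_iUnion_atTop ?_
    intro M M' h ω hω
    exact ⟨hω.1, Hit_mono (op_mono (boxE_mono h) ω) hω.2⟩
  have h3 := (ENNReal.tendsto_toReal (measure_ne_top percE _)).comp h2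
  have h4 : Tendsto (fun M : ℕ =>
      ∑ η ∈ (boxE m).powerset.filter W, (1 / 2 : ℝ) ^ (boxE m).card * PMm m η G A n M) atTop
      (𝓝 (∑ η ∈ (boxE m).powerset.filter W, (1 / 2 : ℝ) ^ (boxE m).card * PPm m η G A n)) := by
    apply tendsto_finsetSum
    intro η _
    exact (PMm_tendsto m η G A n).const_mul _
  have h5 : ∀ᶠ M : ℕ in atTop,
      ∑ η ∈ (boxE m).powerset.filter W, (1 / 2 : ℝ) ^ (boxE m).card * PMm m η G A n M =
      (ENNReal.toReal ∘ fun M : ℕ =>
        percE {ω | W (op (boxE m) ω) ∧ Hit G A n (op (boxE M) ω)}) M := by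
    filter_upwards [eventually_ge_atTop m] with M hM
    rw [← fin_vol hM]
    have := percE_event (boxE M) (fun F => W (F ∩ boxE m) ∧ Hit G A n F)
    simp only [op_inter hM] at this
    exact this.symm
  rw [hU]
  have h6 := h4.congr' h5
  exact tendsto_nhds_unique h3 h6

end Pool.Agent.U312.SA
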